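import Pool.Agent.UL3.Stmts

/-!
# Squad UL3, row BAL (helper94)
-/

set_option autoImplicit false

open MeasureTheory Set

namespace Pool.Agent.UL3.H94

open Pool.Agent.UL3

theorem ind_eq (g : ℝ → ℝ) :
    (Metric.closedBall (0 : E3) 1).indicator (fun u : E3 => g ‖u‖) =
      fun u : E3 => (Iic (1 : ℝ)).indicator g ‖u‖ := by
  funext u
  by_cases hu : ‖u‖ ≤ 1
  · rw [indicator_of_mem (by simpa using hu), indicator_of_mem (by simpa using hu)]
  · rw [indicator_of_notMem (by simpa using hu), indicator_of_notMem (by simpa using hu)]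

theorem fr : Module.finrank ℝ E3 = 3 := by simp

theorem int_core (g h : ℝ → ℝ) (hh : Continuous h) (hg : ∀ y ∈ Ioc (0 : ℝ) 1, y ^ 2 * g y = h y) :
    IntegrableOn (fun u : E3 => g ‖u‖) (Metric.closedBall 0 1) ∧
      (∫ u in Metric.closedBall (0 : E3) 1, g ‖u‖) = 4 * Real.pi * ∫ y in (0 : ℝ)..1, h y := by
  have hE : EqOn (fun y : ℝ => y ^ 2 • (Iic (1 : ℝ)).indicator g y)
      ((Ioc (0 : ℝ) 1).indicator h) (Ioi 0) := by
    intro y hy
    by_cases h1 : y ≤ 1
    · simp only [smul_eq_mul]
      rw [indicator_of_mem (show y ∈ Iic (1 : ℝ) from h1),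
        indicator_of_mem (show y ∈ Ioc (0 : ℝ) 1 from ⟨hy, h1⟩)]
      exact hg y ⟨hy, h1⟩
    · simp only [smul_eq_mul]
      rw [indicator_of_notMem (show y ∉ Iic (1 : ℝ) from fun h => h1 h),
        indicator_of_notMem (show y ∉ Ioc (0 : ℝ) 1 from fun h => h1 h.2), mul_zero]
  have hI : IntegrableOn h (Ioc (0 : ℝ) 1) := by
    exact (hh.integrableOn_Icc (μ := volume) (a := (0 : ℝ)) (b := 1)).mono_set
      Ioc_subset_Icc_self
  have hsub : Ioc (0 : ℝ) 1 ∩ Ioi 0 = Ioc (0 : ℝ) 1 := by
    ext y
    simp only [mem_inter_iff, mem_Ioc, mem_Ioi]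
    tauto
  constructor
  · rw [← integrable_indicator_iff measurableSet_closedBall, ind_eq,
      integrable_fun_norm_addHaar (volume : Measure E3) (f := (Iic (1 : ℝ)).indicator g), fr]
    rw [integrableOn_congr_fun hE measurableSet_Ioi]
    exact ((integrable_indicator_iff measurableSet_Ioc).2 hI).integrableOn
  · rw [← integral_indicator measurableSet_closedBall, ind_eq,
      integral_fun_norm_addHaar (volume : Measure E3) ((Iic (1 : ℝ)).indicator g), fr]
    rw [setIntegral_congr_fun measurableSet_Ioi hE, integral_indicator measurableSet_Ioc,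
      Measure.restrict_restrict measurableSet_Ioc, hsub,
      intervalIntegral.integral_of_le zero_le_one]
    have hv : (volume : Measure E3).real (Metric.ball 0 1) = Real.pi * 4 / 3 := by
      rw [Measure.real, EuclideanSpace.volume_ball_fin_three]
      simp only [ENNReal.ofReal_one, one_pow, one_mul]
      exact ENNReal.toReal_ofReal (by positivity)
    rw [hv]
    simp only [nsmul_eq_mul, smul_eq_mul]
    push_cast
    ring

theorem bal : BalStmt := by
  have h1 := int_core (fun y => y⁻¹) (fun y => y) continuous_id (by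
    intro y hy
    have : y ≠ 0 := ne_of_gt hy.1
    field_simp)
  have h2 := int_core (fun y => (y ^ 2)⁻¹) (fun _ => 1) continuous_const (by
    intro y hy
    have : y ≠ 0 := ne_of_gt hy.1
    field_simp)
  refine ⟨h1.1, h2.1, ?_, ?_⟩
  · rw [h1.2, integral_id]
    ring
  · rw [h2.2, intervalIntegral.integral_const]
    simp

end Pool.Agent.UL3.H94
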